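import Pool.Agent.V11294.Tri.Fin

/-!
# MP_b41085_nt: ratio and root monotonicity for the sums of cubes of trinomial coefficients
-/

set_option autoImplicit false

open Finset Filter Topology

namespace Pool.Agent.Results.MP_b41085_nt.TriCubes

/-- `S(n) = Σ_{i,j ≥ 0, i+j ≤ n} (n! / (i! j! (n-i-j)!))^3` (the quotients are exact) -/
def S (n : ℕ) : ℕ :=
  ∑ i ∈ range (n + 1), ∑ j ∈ range (n + 1 - i),
    (n.factorial / (i.factorial * j.factorial * (n - i - j).factorial)) ^ 3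

/-- `a_n = S(n+1)/S(n)` -/
noncomputable def a (n : ℕ) : ℝ := (S (n + 1) : ℝ) / (S n : ℝ)

/-- `b_n = S(n+1)^{1/(n+1)} / S(n)^{1/n}` -/
noncomputable def b (n : ℕ) : ℝ :=
  ((S (n + 1) : ℝ) ^ ((1 : ℝ) / ((n : ℝ) + 1))) / ((S n : ℝ) ^ ((1 : ℝ) / (n : ℝ)))

theorem S_pos (n : ℕ) : (0 : ℝ) < S n := by
  have := V11294.Tri.S_pos n
  exact_mod_cast this

theorem a_eq (n : ℕ) : a n = ((V11294.Tri.aq n : ℚ) : ℝ) := by
  rw [V11294.Tri.aq_eq]; push_cast; rfl

theorem a_lt (n : ℕ) : a n < a (n + 1) := by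
  rw [a_eq, a_eq]; exact_mod_cast V11294.Tri.aq_lt n

theorem a_pos (n : ℕ) : 0 < a n := div_pos (S_pos _) (S_pos _)

theorem a_lt27 (n : ℕ) : a n < 27 := by
  rw [a_eq]; exact_mod_cast V11294.Tri.aq_lt27 n

theorem a_ge (n : ℕ) : 3 ≤ a n := by
  have h : StrictMono a := strictMono_nat_of_lt_succ a_lt
  have h0 : a 0 = 3 := by
    unfold a
    have e0 : S 0 = 1 := V11294.Tri.S0
    have e1 : S (0 + 1) = 3 := V11294.Tri.S1
    rw [e0, e1]; norm_num
  rw [← h0]; exact h.monotone (Nat.zero_le n)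

theorem a_lim : Tendsto a atTop (𝓝 27) := by
  rw [← tendsto_add_atTop_iff_nat 5]
  have hlow : ∀ n : ℕ, 27 - 54 / ((n : ℝ) + 5) - 168 / ((n : ℝ) + 5) ^ 3 ≤ a (n + 5) := by
    intro n
    have h1 := (V11294.Tri.bounds n).1
    have h2 : (((V11294.Tri.lP 162 ((n : ℚ) + 5) / ((n : ℚ) + 5) ^ 4 : ℚ)) : ℝ) ≤ a (n + 5) := by
      rw [a_eq]; exact_mod_cast h1
    refine le_trans ?_ h2
    unfold V11294.Tri.lP
    push_cast
    rw [le_div_iff₀ (by positivity)]
    have h5 : (0 : ℝ) < (n : ℝ) + 5 := by positivity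
    have e : (27 - 54 / ((n : ℝ) + 5) - 168 / ((n : ℝ) + 5) ^ 3) * ((n : ℝ) + 5) ^ 4
        = 27 * ((n : ℝ) + 5) ^ 4 - 54 * ((n : ℝ) + 5) ^ 3 - 168 * ((n : ℝ) + 5) := by
      field_simp
    rw [e]
    nlinarith [sq_nonneg ((n : ℝ) + 5)]
  have hinv : Tendsto (fun n : ℕ => ((n : ℝ) + 5)⁻¹) atTop (𝓝 0) := by
    apply Tendsto.inv_tendsto_atTop
    exact tendsto_atTop_add_const_right _ _ tendsto_natCast_atTop_atTop
  have hL : Tendsto (fun n : ℕ => 27 - 54 / ((n : ℝ) + 5) - 168 / ((n : ℝ) + 5) ^ 3) atTop (𝓝 27) := by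
    have h1 : Tendsto (fun n : ℕ => 27 - 54 * ((n : ℝ) + 5)⁻¹ - 168 * (((n : ℝ) + 5)⁻¹) ^ 3) atTop
        (𝓝 (27 - 54 * 0 - 168 * 0 ^ 3)) :=
      (tendsto_const_nhds.sub (hinv.const_mul 54)).sub ((hinv.pow 3).const_mul 168)
    have h2 : (27 - 54 * 0 - 168 * 0 ^ 3 : ℝ) = 27 := by norm_num
    rw [h2] at h1
    refine h1.congr ?_
    intro n
    rw [div_eq_mul_inv, div_eq_mul_inv, inv_pow]
  exact tendsto_of_tendsto_of_tendsto_of_le_of_le hL tendsto_const_nhds hlow (fun n => (a_lt27 _).le)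

/-- `log S(n)` -/
noncomputable def x (n : ℕ) : ℝ := Real.log (S n)

theorem x_succ (n : ℕ) : x (n + 1) = x n + Real.log (a n) := by
  unfold x a
  rw [Real.log_div (S_pos _).ne' (S_pos _).ne']; ring

theorem rlc (n : ℕ) : Real.log (a n) + Real.log (a (n + 2)) < 2 * Real.log (a (n + 1)) := by
  have h := V11294.Tri.aq_rlc n
  have h1 : a n * a (n + 2) < a (n + 1) ^ 2 := by
    rw [a_eq, a_eq, a_eq]; exact_mod_cast h
  have h2 := Real.log_lt_log (mul_pos (a_pos _) (a_pos _)) h1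
  rw [Real.log_mul (a_pos _).ne' (a_pos _).ne', Real.log_pow] at h2
  push_cast at h2
  exact h2

theorem E_pos (n : ℕ) : 0 < ((n : ℝ) + 2) * (n + 3) * Real.log (a (n + 1)) - ((n : ℝ) + 1) * (n + 2) * Real.log (a (n + 2))
    - 2 * x (n + 2) := by
  induction n with
  | zero =>
    have e1 : S 2 = 27 := V11294.Tri.S2
    have e2 : S 3 = 381 := V11294.Tri.S3
    have e0 : S 1 = 3 := V11294.Tri.S1
    have h1 : a (0 + 1) = 9 := by unfold a; norm_num [e0, e1]
    have h2 : a (0 + 2) = 127 / 9 := by unfold a; norm_num [e1, e2]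
    have h3 : x (0 + 2) = Real.log 27 := by unfold x; norm_num [e1]
    rw [h1, h2, h3]
    have h4 : Real.log 27 = 3 * Real.log 3 := by
      rw [show (27 : ℝ) = 3 ^ 3 by norm_num, Real.log_pow]; norm_num
    have h5 : Real.log 9 = 2 * Real.log 3 := by
      rw [show (9 : ℝ) = 3 ^ 2 by norm_num, Real.log_pow]; norm_num
    have h6 : Real.log (127 / 9) = Real.log 127 - 2 * Real.log 3 := by
      rw [Real.log_div (by norm_num) (by norm_num), h5]
    have h7 : Real.log 127 < 5 * Real.log 3 := by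
      have : Real.log 127 < Real.log (3 ^ 5) := Real.log_lt_log (by norm_num) (by norm_num)
      rwa [Real.log_pow] at this
    rw [h4, h5, h6]
    push_cast
    nlinarith
  | succ n ih =>
    have h1 := rlc (n + 1)
    have h2 := x_succ (n + 2)
    rw [show n + 1 + 1 = n + 2 by ring, show n + 1 + 2 = n + 3 by ring] at *
    rw [show n + 2 + 1 = n + 3 by ring] at h2
    rw [h2]
    push_cast
    have hp : (0 : ℝ) < ((n : ℝ) + 2) * (n + 3) := by positivity
    nlinarith [mul_pos hp (sub_pos.2 h1)]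

theorem b_eq (n : ℕ) : b (n + 1) = Real.exp (x (n + 2) / ((n : ℝ) + 2) - x (n + 1) / ((n : ℝ) + 1)) := by
  unfold b x
  rw [Real.exp_sub, Real.rpow_def_of_pos (S_pos _), Real.rpow_def_of_pos (S_pos _)]
  push_cast
  rw [show n + 1 + 1 = n + 2 by ring]
  congr 2
  · rw [show (n : ℝ) + 1 + 1 = n + 2 by ring]; ring
  · ring

theorem b_anti (n : ℕ) : b (n + 2) < b (n + 1) := by
  rw [show n + 2 = (n + 1) + 1 by ring, b_eq, b_eq]
  apply Real.exp_lt_exp.2
  have hE := E_pos n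
  have h1 := x_succ (n + 1)
  have h2 := x_succ (n + 2)
  rw [show n + 1 + 1 = n + 2 by ring] at h1
  rw [show n + 2 + 1 = n + 3 by ring] at h2
  push_cast
  rw [show n + 1 + 2 = n + 3 by ring, show (n : ℝ) + 1 + 2 = n + 3 by ring, show (n : ℝ) + 1 + 1 = n + 2 by ring,
    show n + 1 + 1 = n + 2 by ring]
  rw [← sub_pos]
  have e : x (n + 2) / ((n : ℝ) + 2) - x (n + 1) / ((n : ℝ) + 1) - (x (n + 3) / ((n : ℝ) + 3) - x (n + 2) / ((n : ℝ) + 2))
      = (((n : ℝ) + 2) * (n + 3) * Real.log (a (n + 1)) - ((n : ℝ) + 1) * (n + 2) * Real.log (a (n + 2))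
    - 2 * x (n + 2)) / (((n : ℝ) + 1) * (n + 2) * (n + 3)) := by
    have e1 : x (n + 1) = x (n + 2) - Real.log (a (n + 1)) := by rw [h1]; ring
    rw [h2, e1]
    field_simp
    ring
  rw [e]
  positivity

theorem x_bd (n : ℕ) : 0 ≤ x n ∧ x n ≤ n * Real.log 27 := by
  induction n with
  | zero =>
    have e0 : S 0 = 1 := V11294.Tri.S0
    unfold x; simp [e0]
  | succ n ih =>
    rw [x_succ]
    have h1 : 0 ≤ Real.log (a n) := Real.log_nonneg (by linarith [a_ge n])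
    have h2 : Real.log (a n) ≤ Real.log 27 := Real.log_le_log (a_pos n) (a_lt27 n).le
    push_cast
    constructor
    · linarith [ih.1]
    · linarith [ih.2]

theorem b_lim : Tendsto b atTop (𝓝 1) := by
  rw [← tendsto_add_atTop_iff_nat 1]
  have h1 : Tendsto (fun n : ℕ => x (n + 2) / ((n : ℝ) + 2) - x (n + 1) / ((n : ℝ) + 1)) atTop (𝓝 0) := by
    have hinv : Tendsto (fun n : ℕ => Real.log 27 * ((n : ℝ) + 2)⁻¹) atTop (𝓝 0) := by
      have : Tendsto (fun n : ℕ => ((n : ℝ) + 2)⁻¹) atTop (𝓝 0) := by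
        apply Tendsto.inv_tendsto_atTop
        exact tendsto_atTop_add_const_right _ _ tendsto_natCast_atTop_atTop
      simpa using this.const_mul (Real.log 27)
    apply squeeze_zero_norm _ hinv
    intro n
    have e : x (n + 2) / ((n : ℝ) + 2) - x (n + 1) / ((n : ℝ) + 1)
        = (Real.log (a (n + 1)) - x (n + 1) / ((n : ℝ) + 1)) * ((n : ℝ) + 2)⁻¹ := by
      have h2 := x_succ (n + 1)
      rw [show n + 1 + 1 = n + 2 by ring] at h2
      rw [h2]
      field_simp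
      ring
    rw [e, norm_mul, Real.norm_eq_abs, Real.norm_eq_abs, abs_of_pos (by positivity : (0 : ℝ) < ((n : ℝ) + 2)⁻¹)]
    apply mul_le_mul_of_nonneg_right _ (by positivity)
    have b1 : 0 ≤ Real.log (a (n + 1)) := Real.log_nonneg (by linarith [a_ge (n + 1)])
    have b2 : Real.log (a (n + 1)) ≤ Real.log 27 := Real.log_le_log (a_pos _) (a_lt27 _).le
    obtain ⟨b3, b4⟩ := x_bd (n + 1)
    have b5 : 0 ≤ x (n + 1) / ((n : ℝ) + 1) := by positivity
    have b6 : x (n + 1) / ((n : ℝ) + 1) ≤ Real.log 27 := by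
      rw [div_le_iff₀ (by positivity)]
      push_cast at b4
      linarith
    rw [abs_le]
    constructor <;> linarith
  have h2 : Tendsto (fun n : ℕ => Real.exp (x (n + 2) / ((n : ℝ) + 2) - x (n + 1) / ((n : ℝ) + 1))) atTop (𝓝 1) := by
    have := (Real.continuous_exp.tendsto 0).comp h1
    rw [Real.exp_zero] at this
    exact this
  refine h2.congr ?_
  intro n
  exact (b_eq n).symm

/-- Q1 and Q2: `a_n = S(n+1)/S(n)` is strictly increasing with limit `27`, and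
`b_n = S(n+1)^{1/(n+1)}/S(n)^{1/n}` is strictly decreasing for `n ≥ 1` with limit `1`. -/
theorem result : ((∀ n : ℕ, a n < a (n + 1)) ∧ Tendsto a atTop (𝓝 27)) ∧
    ((∀ n : ℕ, 1 ≤ n → b (n + 1) < b n) ∧ Tendsto b atTop (𝓝 1)) := by
  refine ⟨⟨a_lt, a_lim⟩, ⟨?_, b_lim⟩⟩
  intro n hn
  obtain ⟨m, rfl⟩ : ∃ m, n = m + 1 := ⟨n - 1, by omega⟩
  exact b_anti m

end Pool.Agent.Results.MP_b41085_nt.TriCubes
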